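import Pool.Agent.P8H99.GO.Stm

/-!
# Project OD, package LNM: the numbers of the lower bound (helper82)
-/

set_option autoImplicit false

namespace Pool.Agent.P8H82.OD

open Finset Pool.Agent.P8H99.GO

theorem two_pow_le (w : ℕ) : 2 ^ w ≤ (w + 1) * w.choose (w / 2) := by
  rw [← Nat.sum_range_choose w]
  calc ∑ m ∈ range (w + 1), w.choose m ≤ (range (w + 1)).card • w.choose (w / 2) :=
        Finset.sum_le_card_nsmul _ _ _ fun r _ => Nat.choose_le_middle r w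
    _ = (w + 1) * w.choose (w / 2) := by rw [card_range, smul_eq_mul]

/-- Bernoulli -/
theorem bern (P m : ℕ) (hP : 1 ≤ P) : ((P : ℝ) ^ m) * (1 - m / P) ≤ ((P - 1 : ℕ) : ℝ) ^ m := by
  have hP0 : (0 : ℝ) < P := by exact_mod_cast hP
  have h1 : (1 : ℝ) ≤ P := by exact_mod_cast hP
  have h2 : -2 ≤ (-(1 : ℝ) / P) := by
    rw [le_div_iff₀ hP0]
    linarith
  have h := one_add_mul_le_pow h2 m
  have e : ((P - 1 : ℕ) : ℝ) = P * (1 + -(1 : ℝ) / P) := by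
    rw [Nat.cast_sub hP]
    field_simp
    push_cast
    ring
  rw [e, mul_pow]
  apply mul_le_mul_of_nonneg_left _ (by positivity)
  refine le_trans (le_of_eq ?_) h
  ring

theorem bern4 (P m : ℕ) (hP : 1 ≤ P) (h : 4 * m ≤ P) : 3 * P ^ m ≤ 4 * (P - 1) ^ m := by
  have h1 := bern P m hP
  have hP0 : (0 : ℝ) < P := by exact_mod_cast hP
  have h2 : (m : ℝ) / P ≤ 1 / 4 := by
    rw [div_le_div_iff₀ hP0 (by norm_num)]
    have : (4 * m : ℝ) ≤ P := by exact_mod_cast h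
    linarith
  have h3 : (0 : ℝ) ≤ (P : ℝ) ^ m := by positivity
  have h4 : (3 : ℝ) * (P : ℝ) ^ m ≤ 4 * ((P - 1 : ℕ) : ℝ) ^ m := by nlinarith
  exact_mod_cast h4

theorem bern2 (P m : ℕ) (hP : 1 ≤ P) (h : 2 * m ≤ P) : P ^ m ≤ 2 * (P - 1) ^ m := by
  have h1 := bern P m hP
  have hP0 : (0 : ℝ) < P := by exact_mod_cast hP
  have h2 : (m : ℝ) / P ≤ 1 / 2 := by
    rw [div_le_div_iff₀ hP0 (by norm_num)]
    have : (2 * m : ℝ) ≤ P := by exact_mod_cast h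
    linarith
  have h3 : (0 : ℝ) ≤ (P : ℝ) ^ m := by positivity
  have h4 : (P : ℝ) ^ m ≤ 2 * ((P - 1 : ℕ) : ℝ) ^ m := by nlinarith
  exact_mod_cast h4

theorem core (m t y : ℕ) (ha : 2 ^ (m + (t + y)) ≤ (m + (t + y) + 1) * (m + (t + y)).choose m)
    (hb : 2 ^ (t + y) ≤ (t + y + 1) * (t + y).choose t) (h1 : 4 * m ≤ 2 ^ (t + 1))
    (h2 : 4 * t * 3 ^ m ≤ 4 ^ m) (ht : 1 ≤ t) (h3 : 2 * y ≤ 2 ^ m) (hy : 1 ≤ y) :
    2 ^ (2 * (m + (t + y)) + (t + y) + m * (t + y)) ≤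
      8 * (m + (t + y) + 1) * (t + y + 1) * fam (m + (t + y)) m t := by
  unfold fam
  rw [Nat.add_sub_cancel_left, Nat.add_sub_cancel_left]
  obtain ⟨D, hD⟩ : ∃ D, D = (2 ^ (t + 1) - 1) ^ m - t * (3 * 2 ^ (t - 1)) ^ m := ⟨_, rfl⟩
  obtain ⟨F, hF⟩ : ∃ F, F = (2 ^ m - 1) ^ y := ⟨_, rfl⟩
  obtain ⟨G, hG⟩ : ∃ G, G = 2 ^ y - 1 := ⟨_, rfl⟩
  rw [← hD, ← hF, ← hG]
  have k1 : 2 ^ ((t + 1) * m) ≤ 2 * D := by
    have e1 := bern4 (2 ^ (t + 1)) m Nat.one_le_two_pow h1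
    have e2 : 4 * (t * (3 * 2 ^ (t - 1)) ^ m) ≤ (2 ^ (t + 1)) ^ m := by
      obtain ⟨s, rfl⟩ : ∃ s, t = s + 1 := ⟨t - 1, by omega⟩
      rw [Nat.add_sub_cancel, mul_pow]
      have e3 : (2 : ℕ) ^ (s + 1 + 1) = 4 * 2 ^ s := by rw [pow_succ, pow_succ]; ring
      rw [e3, mul_pow]
      calc 4 * ((s + 1) * (3 ^ m * (2 ^ s) ^ m)) = (4 * (s + 1) * 3 ^ m) * (2 ^ s) ^ m := by ring
        _ ≤ 4 ^ m * (2 ^ s) ^ m := Nat.mul_le_mul_right _ h2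
    rw [pow_mul, hD]
    omega
  have k2 : 2 ^ (m * y) ≤ 2 * F := by
    rw [pow_mul, hF]
    exact bern2 (2 ^ m) y Nat.one_le_two_pow h3
  have k3 : 2 ^ y ≤ 2 * G := by
    have : 2 ≤ 2 ^ y := by
      calc 2 = 2 ^ 1 := rfl
        _ ≤ 2 ^ y := Nat.pow_le_pow_right (by norm_num) hy
    omega
  have e : 2 * (m + (t + y)) + (t + y) + m * (t + y) =
      (m + (t + y)) + ((t + y) + (t + ((t + 1) * m + (m * y + y)))) := by ring
  have e' : 2 ^ ((m + (t + y)) + ((t + y) + (t + ((t + 1) * m + (m * y + y))))) =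
      2 ^ (m + (t + y)) * (2 ^ (t + y) * (2 ^ t * (2 ^ ((t + 1) * m) * (2 ^ (m * y) * 2 ^ y)))) := by
    rw [← pow_add, ← pow_add, ← pow_add, ← pow_add, ← pow_add]
  rw [e, e']
  calc 2 ^ (m + (t + y)) * (2 ^ (t + y) * (2 ^ t * (2 ^ ((t + 1) * m) * (2 ^ (m * y) * 2 ^ y)))) ≤
      ((m + (t + y) + 1) * (m + (t + y)).choose m) * (((t + y + 1) * (t + y).choose t) *
        (2 ^ t * ((2 * D) * ((2 * F) * (2 * G))))) := by gcongr
    _ = _ := by ring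

theorem num1 (t : ℕ) (h : 5 ≤ t) : 8 * t + 4 ≤ 2 ^ (t + 1) := by
  induction t, h using Nat.le_induction with
  | base => norm_num
  | succ t ht ih => rw [pow_succ]; omega

theorem num2 (m : ℕ) (h : 15 ≤ m) : 4 * m * 3 ^ m ≤ 4 ^ m := by
  induction m, h using Nat.le_induction with
  | base => norm_num
  | succ m hm ih =>
    calc 4 * (m + 1) * 3 ^ (m + 1) = (3 * (m + 1)) * (4 * 3 ^ m) := by rw [pow_succ]; ring
      _ ≤ (4 * m) * (4 * 3 ^ m) := Nat.mul_le_mul_right _ (by omega)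
      _ = 4 * (4 * m * 3 ^ m) := by ring
      _ ≤ 4 * 4 ^ m := Nat.mul_le_mul_left _ ih
      _ = 4 ^ (m + 1) := by rw [pow_succ]; ring

theorem num3 (m : ℕ) (h : 3 ≤ m) : 2 * (m + 1) ≤ 2 ^ m := by
  induction m, h using Nat.le_induction with
  | base => norm_num
  | succ m hm ih => rw [pow_succ]; omega

theorem main (w : ℕ) (hw : 60 ≤ w) :
    2 ^ (2 * w + (w - w / 2) + w / 2 * (w - w / 2)) ≤
      8 * (w + 1) * ((w - w / 2) + 1) * fam w (w / 2) ((w - w / 2) / 2) := by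
  obtain ⟨m, hm⟩ : ∃ m, m = w / 2 := ⟨_, rfl⟩
  obtain ⟨t, ht⟩ : ∃ t, t = (w - w / 2) / 2 := ⟨_, rfl⟩
  obtain ⟨y, hy⟩ : ∃ y, y = (w - w / 2) - (w - w / 2) / 2 := ⟨_, rfl⟩
  have e1 : w - w / 2 = t + y := by omega
  have e2 : w = m + (t + y) := by omega
  have ha : 2 ^ (m + (t + y)) ≤ (m + (t + y) + 1) * (m + (t + y)).choose m := by
    rw [← e2, hm]
    exact two_pow_le w
  have hb : 2 ^ (t + y) ≤ (t + y + 1) * (t + y).choose t := by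
    have := two_pow_le (t + y)
    have e3 : (t + y) / 2 = t := by omega
    rwa [e3] at this
  have h1 : 4 * m ≤ 2 ^ (t + 1) := by
    have := num1 t (by omega)
    omega
  have h2 : 4 * t * 3 ^ m ≤ 4 ^ m :=
    (Nat.mul_le_mul_right _ (by omega)).trans (num2 m (by omega))
  have h3 : 2 * y ≤ 2 ^ m := by
    have := num3 m (by omega)
    omega
  have h := core m t y ha hb h1 h2 (by omega) h3 (by omega)
  rw [← ht, e1, ← hm]
  rw [← e2] at h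
  exact h

theorem lnm : S_LNM := by
  intro k hk
  refine ⟨12, 60 + k, fun n hn => ?_⟩
  obtain ⟨w, hw⟩ : ∃ w, w = n - (k - 2) := ⟨_, rfl⟩
  rw [← hw]
  have hw60 : 60 ≤ w := by omega
  have hM := main w hw60
  obtain ⟨m, hm⟩ : ∃ m, m = w / 2 := ⟨_, rfl⟩
  obtain ⟨u, hu⟩ : ∃ u, u = w - w / 2 := ⟨_, rfl⟩
  obtain ⟨f, hf⟩ : ∃ f, f = fam w (w / 2) ((w - w / 2) / 2) := ⟨_, rfl⟩
  rw [← hf, ← hu, ← hm] at hM
  rw [← hf]
  have hn2 : 2 ≤ n := by omega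
  -- the exponent
  have hE : (n : ℝ) ^ 2 / 4 + (7 - (k : ℝ)) / 2 * n ≤ ((2 * w + u + m * u + 7 : ℕ) : ℝ) := by
    have hnw : (n : ℝ) = w + (k - 2) := by
      have : n = w + (k - 2) := by omega
      have h2 : 2 ≤ k := by omega
      rw [this]
      push_cast [h2]
      ring
    have hmu : (u = m ∧ w = 2 * m) ∨ (u = m + 1 ∧ w = 2 * m + 1) := by omega
    push_cast
    rw [hnw]
    rcases hmu with ⟨a1, a2⟩ | ⟨a1, a2⟩
    · have b1 : (u : ℝ) = m := by exact_mod_cast a1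
      have b2 : (w : ℝ) = 2 * m := by exact_mod_cast a2
      rw [b1, b2]
      nlinarith [sq_nonneg ((k : ℝ) - 7)]
    · have b1 : (u : ℝ) = m + 1 := by exact_mod_cast a1
      have b2 : (w : ℝ) = 2 * m + 1 := by exact_mod_cast a2
      rw [b1, b2]
      nlinarith [sq_nonneg ((k : ℝ) - 7)]
  have hN : 2 ^ (2 * w + u + m * u + 7) ≤ n ^ 12 * f := by
    have c1 : 8 * (w + 1) * (u + 1) ≤ 8 * n * n := by
      have : w + 1 ≤ n := by omega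
      have : u + 1 ≤ n := by omega
      gcongr
    calc 2 ^ (2 * w + u + m * u + 7) = 2 ^ (2 * w + u + m * u) * 2 ^ 7 := pow_add _ _ _
      _ ≤ (8 * (w + 1) * (u + 1) * f) * 2 ^ 7 := Nat.mul_le_mul_right _ hM
      _ ≤ (8 * n * n * f) * 2 ^ 7 := by gcongr
      _ = 2 ^ 10 * (n ^ 2 * f) := by ring
      _ ≤ n ^ 10 * (n ^ 2 * f) := Nat.mul_le_mul_right _ (Nat.pow_le_pow_left hn2 10)
      _ = n ^ 12 * f := by ring
  calc (2 : ℝ) ^ ((n : ℝ) ^ 2 / 4 + (7 - (k : ℝ)) / 2 * n)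
      ≤ (2 : ℝ) ^ ((2 * w + u + m * u + 7 : ℕ) : ℝ) :=
        Real.rpow_le_rpow_of_exponent_le (by norm_num) hE
    _ = (2 : ℝ) ^ (2 * w + u + m * u + 7) := Real.rpow_natCast _ _
    _ ≤ (n : ℝ) ^ 12 * (f : ℝ) := by exact_mod_cast hN

end Pool.Agent.P8H82.OD
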